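import Mathlib
import Pool.Agent.H.MP_6e7106_pr.C

set_option autoImplicit false
open MeasureTheory ProbabilityTheory Filter Topology SimpleGraph

namespace Pool.Agent.Results.MP_6e7106_pr.ThinTorus

/-- independent `p`-coins on the unordered pairs of vertices -/
noncomputable def P (V : Type) (p : unitInterval) : Measure (Sym2 V → Bool) :=
  Measure.infinitePi fun _ => bernoulliMeasure true false p

/-- the graph of kept edges -/
def kept {V : Type} (G : SimpleGraph V) (ω : Sym2 V → Bool) : SimpleGraph V :=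
  G ⊓ fromEdgeSet {e | ω e = true}

theorem result : ∃ (V : ℕ → Type) (_ : ∀ n, Finite (V n)) (G : ∀ n, SimpleGraph (V n))
    (p : unitInterval),
    (∀ n, (G n).Connected ∧ (∀ v, ((G n).neighborSet v).ncard = 4) ∧
      ∀ u v, ∃ φ : G n ≃g G n, φ u = v) ∧
    Tendsto (fun n => Nat.card (V n)) atTop atTop ∧
    (∀ n v, 1 / 4 < (P (V n) p).real {ω | ∃ x y, (kept (G n) ω).Reachable v x ∧
      (kept (G n) ω).Reachable v y ∧ ((G n).diam : ℝ) / 2 ≤ (G n).dist x y}) ∧
    ∀ C : ℝ, 0 < C → ∃ c : ℝ, 0 < c ∧ ∀ᶠ n in atTop,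
      (P (V n) p).real {ω | ∃ D : (kept (G n) ω).ConnectedComponent,
        C * Nat.card (V n) ≤ D.supp.ncard} ≤ 1 - c := by
  choose L h1 h2 h3 using fun n => H.MP_6e7106_pr.tune (w := n + 8)
  have h0 : ∀ n, n + 8 ≤ L n := fun n => Nat.lt_two_pow_self.le.trans (h1 n)
  have : ∀ n, NeZero (L n) := fun n => ⟨by have := h0 n; omega⟩
  have hL : ∀ n, 3 ≤ L n := fun n => by have := h0 n; omega
  have hc : ∀ n, Nat.card (ZMod (L n) × ZMod (n + 8)) = L n * (n + 8) := fun n => by simp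
  refine ⟨fun n => ZMod (L n) × ZMod (n + 8), fun n => inferInstance,
    fun n => H.MP_6e7106_pr.T _ _, H.MP_6e7106_pr.p0, fun n => ⟨H.MP_6e7106_pr.conn (hL n) (by omega),
      H.MP_6e7106_pr.deg (hL n) (by omega), H.MP_6e7106_pr.trans (hL n) (by omega)⟩, ?_,
    fun n v => H.MP_6e7106_pr.pa ?_ (by omega) (h1 n) (h2 n) v, fun C hC => ?_⟩
  · refine tendsto_atTop_mono (fun n => ?_) tendsto_id
    have := hL n
    rw [hc, id]; nlinarith
  · rw [pow_add (999 / 500 : ℝ)]
    have : (1:ℝ) ≤ (999 / 500) ^ n := one_le_pow₀ (by norm_num)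
    norm_num; linarith
  · obtain ⟨K, hK⟩ := exists_nat_gt (8 / C)
    have K0 : (0:ℝ) < K := lt_trans (by positivity) hK
    rw [div_lt_iff₀' hC] at hK
    refine ⟨(1 / (16 * K)) ^ K, by positivity, ?_⟩
    have t := ((tendsto_pow_atTop_atTop_of_one_lt (show (1:ℝ) < 999 / 500 by norm_num)).comp
      (tendsto_add_atTop_nat 8)).eventually_ge_atTop (32 * (K:ℝ) ^ 2)
    filter_upwards [t, eventually_ge_atTop (K ^ 2 + 2 * K)] with n a b
    rw [hc]
    have := h0 n
    exact H.MP_6e7106_pr.pb (w := n + 8) (by exact_mod_cast K0) a (by omega) (h1 n) (h3 n) (by omega)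
      (by omega) hK

end Pool.Agent.Results.MP_6e7106_pr.ThinTorus
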